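import Pool.Agent.Run7.h723.OG.Iface

/-!
Piece SAMP of project OG (helper723), by helper774.
-/

set_option autoImplicit false

namespace Pool.Agent.Run7.h774.OG

open Pool.H723.OG

theorem t_SAMP (h1 : S_COST) (h2 : S_AVG) : S_SAMP := by
  intro V _ _ G hn hlow
  classical
  obtain ⟨D, hD⟩ := h2 V G
  refine ⟨cost2 G D / 2, h1 V G D _ (by omega), ?_⟩
  have hsum : ∑ v, (7 / 8 : ℝ) ^ (dg G v) ≤ 2 + (Fintype.card V : ℝ) * (7 / 100) := by
    have h3 : ∀ v : V, (7 / 8 : ℝ) ^ (dg G v) ≤ (if v ∈ low G 19 then (1 : ℝ) else 0) + 7 / 100 := by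
      intro v
      by_cases hv : v ∈ low G 19
      · rw [if_pos hv]
        have : (7 / 8 : ℝ) ^ (dg G v) ≤ 1 := pow_le_one₀ (by norm_num) (by norm_num)
        linarith
      · rw [if_neg hv]
        have h4 : 20 ≤ dg G v := by
          by_contra h
          exact hv (Finset.mem_filter.2 ⟨Finset.mem_univ _, by omega⟩)
        have h5 : (7 / 8 : ℝ) ^ (dg G v) ≤ (7 / 8 : ℝ) ^ 20 :=
          pow_le_pow_of_le_one (by norm_num) (by norm_num) h4
        have h6 : (7 / 8 : ℝ) ^ 20 ≤ 7 / 100 := by norm_num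
        linarith
    calc ∑ v, (7 / 8 : ℝ) ^ (dg G v) ≤ ∑ v : V, ((if v ∈ low G 19 then (1 : ℝ) else 0) + 7 / 100) :=
          Finset.sum_le_sum fun v _ => h3 v
      _ = ((low G 19).card : ℝ) + (Fintype.card V : ℝ) * (7 / 100) := by
          rw [Finset.sum_add_distrib, Finset.sum_const, Finset.card_univ, nsmul_eq_mul, ← Finset.sum_filter]
          simp
      _ ≤ 2 + (Fintype.card V : ℝ) * (7 / 100) := by
          have : ((low G 19).card : ℝ) ≤ 2 := by exact_mod_cast hlow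
          linarith
  have h7 : (cost2 G D : ℝ) ≤ 64 / 100 * (Fintype.card V : ℝ) + 4 := by linarith
  have h8 : (38 : ℝ) ≤ (Fintype.card V : ℝ) := by exact_mod_cast hn
  have h9 : (3 * cost2 G D : ℝ) ≤ 2 * (Fintype.card V : ℝ) + 9 := by linarith
  have h10 : 3 * cost2 G D ≤ 2 * Fintype.card V + 9 := by exact_mod_cast h9
  omega

end Pool.Agent.Run7.h774.OG
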